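import Mathlib
import Pool.Agent.W212.SH.Low

/-!
# A lower bound for the shifted Heller constant

For `m = m' + 1 ≥ 2` the shift `t = (1/m, 0, …, 0)` and the columns `(0, v)`, `v` a difference
vector of dimension `m'` (Heller's example), together with `(-1, 0)`, form an admissible pair.
-/

set_option autoImplicit false

namespace Pool.Agent.Y424.HS

open Pool.Agent.W580.SH Pool.Agent.W212.SH

/-- the columns before the shift -/
def ccol {m : ℕ} (x : Option (Idx m)) : Fin (m + 1) → ℤ :=
  match x with
  | none => Fin.cons (-1) 0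
  | some y => Fin.cons 0 (col y)

lemma ccol_some_zero {m : ℕ} (y : Idx m) : ccol (some y) 0 = 0 := by simp [ccol]
lemma ccol_some_succ {m : ℕ} (y : Idx m) (i : Fin m) : ccol (some y) i.succ = col y i := by
  simp [ccol]
lemma ccol_none_zero {m : ℕ} : ccol (none : Option (Idx m)) 0 = -1 := by simp [ccol]
lemma ccol_none_succ {m : ℕ} (i : Fin m) : ccol (none : Option (Idx m)) i.succ = 0 := by
  simp [ccol]

lemma ccol_inj {m : ℕ} : Function.Injective (ccol : Option (Idx m) → Fin (m + 1) → ℤ) := by
  intro x y hxy
  rcases x with _ | x <;> rcases y with _ | y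
  · rfl
  · have := congrFun hxy 0
    rw [ccol_none_zero, ccol_some_zero] at this
    omega
  · have := congrFun hxy 0
    rw [ccol_none_zero, ccol_some_zero] at this
    omega
  · congr 1
    apply col_inj
    funext i
    have := congrFun hxy i.succ
    rwa [ccol_some_succ, ccol_some_succ] at this

lemma ccol_entries {m : ℕ} (x : Option (Idx m)) (i : Fin (m + 1)) :
    ccol x i = -1 ∨ ccol x i = 0 ∨ ccol x i = 1 := by
  refine Fin.cases ?_ (fun i => ?_) i
  · rcases x with _ | x
    · left; exact ccol_none_zero
    · right; left; exact ccol_some_zero x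
  · rcases x with _ | x
    · right; left; exact ccol_none_succ i
    · rw [ccol_some_succ]; exact (col_good x).1 i

/-- rows below the first one: all minors are at most one in absolute value -/
lemma low_minor {m k : ℕ} (r : Fin k → Fin (m + 1)) (hr : Function.Injective r)
    (h0 : ∀ a, r a ≠ 0) (x : Fin k → Option (Idx m)) :
    |(Matrix.of fun a b => ccol (x b) (r a) : Matrix (Fin k) (Fin k) ℤ).det| ≤ 1 := by
  apply det_good
  intro j
  have hs : ∀ a, ∃ i, r a = Fin.succ i := fun a => Fin.exists_succ_eq_of_ne_zero (h0 a) |>.imp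
    fun i hi => hi.symm
  rcases hx : x j with _ | y
  · have hz : ∀ a, (Matrix.of fun a b => ccol (x b) (r a) : Matrix (Fin k) (Fin k) ℤ) a j = 0 := by
      intro a
      obtain ⟨i, hi⟩ := hs a
      rw [Matrix.of_apply, hx, hi]
      exact ccol_none_succ i
    refine ⟨fun i => Or.inr (Or.inl (hz i)), ?_, ?_⟩
    · intro i i' h; rw [hz] at h; omega
    · intro i i' h; rw [hz] at h; omega
  · obtain ⟨g1, g2, g3⟩ := col_good y
    have hv : ∀ a i, r a = Fin.succ i →
        (Matrix.of fun a b => ccol (x b) (r a) : Matrix (Fin k) (Fin k) ℤ) a j = col y i := by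
      intro a i hi
      rw [Matrix.of_apply, hx, hi]
      exact ccol_some_succ y i
    refine ⟨?_, ?_, ?_⟩
    · intro a
      obtain ⟨i, hi⟩ := hs a
      rw [hv a i hi]; exact g1 i
    · intro a a' h h'
      obtain ⟨i, hi⟩ := hs a
      obtain ⟨i', hi'⟩ := hs a'
      rw [hv a i hi] at h
      rw [hv a' i' hi'] at h'
      apply hr
      rw [hi, hi', g2 _ _ h h']
    · intro a a' h h'
      obtain ⟨i, hi⟩ := hs a
      obtain ⟨i', hi'⟩ := hs a'
      rw [hv a i hi] at h
      rw [hv a' i' hi'] at h'
      apply hr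
      rw [hi, hi', g3 _ _ h h']

/-- the shift -/
noncomputable def sh (m : ℕ) : Fin (m + 1) → ℝ := Fin.cons (1 / ((m : ℝ) + 1)) 0

lemma sh_zero (m : ℕ) : sh m 0 = 1 / ((m : ℝ) + 1) := by simp [sh]
lemma sh_succ {m : ℕ} (i : Fin m) : sh m i.succ = 0 := by simp [sh]
lemma sh_ne {m : ℕ} {i : Fin (m + 1)} (h : i ≠ 0) : sh m i = 0 := by
  obtain ⟨j, rfl⟩ := Fin.exists_succ_eq_of_ne_zero h
  exact sh_succ j

/-- the shifted matrix of the chosen columns -/
noncomputable def sm {m k : ℕ} (r : Fin k → Fin (m + 1)) (x : Fin k → Option (Idx m)) :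
    Matrix (Fin k) (Fin k) ℝ := Matrix.of fun a b => sh m (r a) + (ccol (x b) (r a) : ℝ)

lemma low_minor' {m k : ℕ} (r : Fin k → Fin (m + 1)) (hr : Function.Injective r)
    (h0 : ∀ a, r a ≠ 0) (x : Fin k → Option (Idx m)) : |(sm r x).det| ≤ 1 := by
  have e : sm r x = (Matrix.of fun a b => ccol (x b) (r a) : Matrix (Fin k) (Fin k) ℤ).map
      (Int.castRingHom ℝ) := by
    ext a b
    simp only [sm, Matrix.of_apply, Matrix.map_apply, sh_ne (h0 a), zero_add]
    rfl
  have e2 : (sm r x).det =
      (((Matrix.of fun a b => ccol (x b) (r a) : Matrix (Fin k) (Fin k) ℤ).det : ℤ) : ℝ) := by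
    rw [e, ← RingHom.mapMatrix_apply, ← RingHom.map_det]
    rfl
  rw [e2]
  have := low_minor r hr h0 x
  exact_mod_cast this

lemma minor_bound {m k : ℕ} (r : Fin k → Fin (m + 1)) (x : Fin k → Option (Idx m)) :
    |(sm r x).det| ≤ 1 := by
  by_cases hr : Function.Injective r
  swap
  · have : (sm r x).det = 0 := by
      rw [Function.Injective] at hr
      push Not at hr
      obtain ⟨a, a', h1, h2⟩ := hr
      apply Matrix.det_zero_of_row_eq h2
      funext b
      simp only [sm, Matrix.of_apply, h1]
    rw [this]; simp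
  by_cases hx : Function.Injective x
  swap
  · have : (sm r x).det = 0 := by
      rw [Function.Injective] at hx
      push Not at hx
      obtain ⟨a, a', h1, h2⟩ := hx
      apply Matrix.det_zero_of_column_eq h2
      intro b
      simp only [sm, Matrix.of_apply, h1]
    rw [this]; simp
  by_cases h0 : ∀ a, r a ≠ 0
  · exact low_minor' r hr h0 x
  push Not at h0
  obtain ⟨i0, hi0⟩ := h0
  rcases k with _ | k
  · exact i0.elim0
  have hkm : k + 1 ≤ m + 1 := by
    have := Fintype.card_le_of_injective r hr
    simpa using this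
  have hm0 : (0 : ℝ) < (m : ℝ) + 1 := by positivity
  have hrest : ∀ a, r (i0.succAbove a) ≠ 0 := by
    intro a h
    exact (Fin.succAbove_ne i0 a) (hr (h.trans hi0.symm))
  have hmin : ∀ j : Fin (k + 1), |((sm r x).submatrix i0.succAbove j.succAbove).det| ≤ 1 := by
    intro j
    have e : (sm r x).submatrix i0.succAbove j.succAbove =
        sm (fun a => r (i0.succAbove a)) (fun b => x (j.succAbove b)) := by
      ext a b; rfl
    rw [e]
    exact low_minor' _ (hr.comp Fin.succAbove_right_injective) hrest _
  rw [Matrix.det_succ_row (sm r x) i0]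
  by_cases hn : ∃ j0, x j0 = none
  · obtain ⟨j0, hj0⟩ := hn
    rw [Finset.sum_eq_single j0]
    · rw [abs_mul, abs_mul, abs_pow, abs_neg, abs_one, one_pow, one_mul]
      have h1 : |sm r x i0 j0| ≤ 1 := by
        have : sm r x i0 j0 = 1 / ((m : ℝ) + 1) - 1 := by
          simp only [sm, Matrix.of_apply, hi0, hj0, sh_zero, ccol_none_zero]
          push_cast; ring
        rw [this, abs_le]
        have h2 : 0 ≤ 1 / ((m : ℝ) + 1) := by positivity
        have h3 : 1 / ((m : ℝ) + 1) ≤ 1 := by
          rw [div_le_one hm0]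
          have : (0 : ℝ) ≤ m := Nat.cast_nonneg m
          linarith
        constructor <;> linarith
      calc |sm r x i0 j0| * |((sm r x).submatrix i0.succAbove j0.succAbove).det| ≤ 1 * 1 :=
          mul_le_mul h1 (hmin j0) (abs_nonneg _) zero_le_one
        _ = 1 := one_mul 1
    · intro j _ hj
      obtain ⟨b, hb⟩ := Fin.exists_succAbove_eq hj.symm
      have : ((sm r x).submatrix i0.succAbove j.succAbove).det = 0 := by
        apply Matrix.det_eq_zero_of_column_eq_zero b
        intro a
        obtain ⟨i, hi⟩ := Fin.exists_succ_eq_of_ne_zero (hrest a)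
        simp only [Matrix.submatrix_apply, sm, Matrix.of_apply, hb, hj0, ← hi, sh_succ,
          ccol_none_succ]
        simp
      rw [this, mul_zero]
    · intro h; exact absurd (Finset.mem_univ _) h
  · push Not at hn
    have hrow : ∀ j, sm r x i0 j = 1 / ((m : ℝ) + 1) := by
      intro j
      rcases hxj : x j with _ | y
      · exact absurd hxj (hn j)
      · simp only [sm, Matrix.of_apply, hi0, hxj, sh_zero, ccol_some_zero]
        simp
    calc |∑ j : Fin (k + 1), (-1) ^ ((i0 : ℕ) + (j : ℕ)) * sm r x i0 j *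
          ((sm r x).submatrix i0.succAbove j.succAbove).det|
        ≤ ∑ j : Fin (k + 1), |(-1) ^ ((i0 : ℕ) + (j : ℕ)) * sm r x i0 j *
          ((sm r x).submatrix i0.succAbove j.succAbove).det| := Finset.abs_sum_le_sum_abs _ _
      _ ≤ ∑ _j : Fin (k + 1), 1 / ((m : ℝ) + 1) := by
          refine Finset.sum_le_sum fun j _ => ?_
          rw [abs_mul, abs_mul, abs_pow, abs_neg, abs_one, one_pow, one_mul, hrow,
            abs_of_nonneg (by positivity)]
          calc 1 / ((m : ℝ) + 1) * |((sm r x).submatrix i0.succAbove j.succAbove).det|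
              ≤ 1 / ((m : ℝ) + 1) * 1 := by
                refine mul_le_mul_of_nonneg_left (hmin j) (by positivity)
            _ = _ := mul_one _
      _ = ((k : ℝ) + 1) * (1 / ((m : ℝ) + 1)) := by
          rw [Finset.sum_const, Finset.card_univ, Fintype.card_fin, nsmul_eq_mul]
          push_cast; ring
      _ ≤ 1 := by
          rw [mul_one_div, div_le_one hm0]
          exact_mod_cast hkm

theorem lower (m : ℕ) (hm : 1 ≤ m) : m ^ 2 + m + 2 ∈ ShiftedSizes (m + 1) := by
  have hcard : Fintype.card (Option (Idx m)) = m ^ 2 + m + 2 := by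
    rw [Fintype.card_option, card_idx]
  set e : Fin (m ^ 2 + m + 2) ≃ Option (Idx m) := (Fintype.equivFinOfCardEq hcard).symm with he
  have hm0 : (0 : ℝ) < (m : ℝ) + 1 := by positivity
  have hm1 : (1 : ℝ) ≤ m := by exact_mod_cast hm
  refine ⟨sh m, Matrix.of fun i j => (ccol (e j) i : ℝ), ?_, ?_, ?_, ?_, ?_⟩
  · intro i
    refine Fin.cases ?_ (fun i => ?_) i
    · rw [sh_zero]
      refine ⟨by positivity, ?_⟩
      rw [div_lt_one hm0]
      linarith
    · rw [sh_succ]; norm_num
  · intro h
    have := congrFun h 0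
    rw [sh_zero] at this
    have h2 : 0 < 1 / ((m : ℝ) + 1) := by positivity
    rw [this] at h2
    exact lt_irrefl _ h2
  · intro i j
    rw [Matrix.of_apply]
    rcases ccol_entries (e j) i with h | h | h
    · left; rw [h]; norm_num
    · right; left; rw [h]; norm_num
    · right; right; rw [h]; norm_num
  · intro j j' h
    apply e.injective
    apply ccol_inj
    funext i
    have := congrFun h i
    simp only [Matrix.transpose_apply, Matrix.of_apply] at this
    exact_mod_cast this
  · intro k r c
    have := minor_bound r (fun b => e (c b))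
    exact this

end Pool.Agent.Y424.HS
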