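import Mathlib
import Pool.Agent.W580.SH.StmC

/-!
# A lower bound for the shifted Heller constant, small dimensions

For `m = d + 1 ≥ 2` the shift `t = (1/2, …, 1/2, 0)` and the `6 d` vectors `(± p_j, z)`,
`p_j = (1/2, …, 1/2, -1/2, …, -1/2)` with `j + 1` positive entries (`j < d`), `z ∈ {-1, 0, 1}`, form
an admissible pair.
-/

set_option autoImplicit false

namespace Pool.Agent.Y424.HS

open Pool.Agent.W580.SH

/-- the entry `i` of `± p_j` -/
noncomputable def pv {d : ℕ} (i j : Fin d) (s : Bool) : ℝ :=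
  (if s then 1 else -1) * (if i ≤ j then 1 / 2 else -(1 / 2))

lemma abs_sgn (s : Bool) : |(if s then (1 : ℝ) else -1)| = 1 := by cases s <;> simp

lemma abs_pv {d : ℕ} (i j : Fin d) (s : Bool) : |pv i j s| = 1 / 2 := by
  unfold pv
  rw [abs_mul, abs_sgn, one_mul]
  split_ifs
  · rw [abs_of_pos]; norm_num
  · rw [abs_neg, abs_of_pos]; norm_num

/-- two parallel columns -/
lemma det_par {k : ℕ} (M : Matrix (Fin k) (Fin k) ℝ) (b b' : Fin k) (hb : b ≠ b') (ε : ℝ)
    (h : ∀ a, M a b = ε * M a b') : M.det = 0 := by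
  rw [← Matrix.exists_mulVec_eq_zero_iff]
  refine ⟨Pi.single b 1 - Pi.single b' ε, ?_, ?_⟩
  · intro hz
    have := congrFun hz b
    simp [hb] at this
  · rw [Matrix.mulVec_sub, Matrix.mulVec_single, Matrix.mulVec_single]
    funext a
    simp only [Pi.sub_apply, Pi.smul_apply, Pi.zero_apply, Matrix.col_apply, MulOpposite.smul_eq_mul_unop,
      MulOpposite.unop_op, mul_one]
    rw [h a]; ring

/-- columns with the same set of positive rows, or with complementary sets, are parallel -/
lemma par_of {d q : ℕ} (r : Fin q → Fin d) (j j' : Fin d) (s s' : Bool)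
    (h : (∀ a, r a ≤ j ↔ r a ≤ j') ∨ (∀ a, r a ≤ j ↔ ¬ r a ≤ j')) :
    ∃ ε : ℝ, ∀ a, pv (r a) j s = ε * pv (r a) j' s' := by
  rcases h with h | h
  · refine ⟨(if s then 1 else -1) * (if s' then 1 else -1), fun a => ?_⟩
    unfold pv
    have h1 := h a
    by_cases h2 : r a ≤ j'
    · rw [if_pos (h1.2 h2), if_pos h2]
      cases s <;> cases s' <;> norm_num
    · rw [if_neg (fun h3 => h2 (h1.1 h3)), if_neg h2]
      cases s <;> cases s' <;> norm_num
  · refine ⟨-((if s then 1 else -1) * (if s' then 1 else -1)), fun a => ?_⟩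
    unfold pv
    have h1 := h a
    by_cases h2 : r a ≤ j'
    · rw [if_neg (fun h3 => (h1.1 h3) h2), if_pos h2]
      cases s <;> cases s' <;> norm_num
    · rw [if_pos (h1.2 h2), if_neg h2]
      cases s <;> cases s' <;> norm_num

/-- pigeonhole: among `n + 2` columns two are parallel on `n + 1` given rows -/
lemma exists_par {d n : ℕ} (r : Fin (n + 1) → Fin d) (j : Fin (n + 2) → Fin d)
    (s : Fin (n + 2) → Bool) :
    ∃ b b', b ≠ b' ∧ ∃ ε : ℝ, ∀ a, pv (r a) (j b) (s b) = ε * pv (r a) (j b') (s b') := by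
  classical
  set S : Fin (n + 2) → Finset (Fin (n + 1)) := fun b => Finset.univ.filter fun a => r a ≤ j b
    with hS
  obtain ⟨b, b', hbb, hf⟩ := Fintype.exists_ne_map_eq_of_card_lt
    (fun b => (⟨(S b).card % (n + 1), Nat.mod_lt _ (Nat.succ_pos n)⟩ : Fin (n + 1))) (by simp)
  have hle : ∀ b, (S b).card ≤ n + 1 := by
    intro b
    have := Finset.card_le_univ (S b)
    simpa using this
  have hmod : (S b).card % (n + 1) = (S b').card % (n + 1) := congrArg Fin.val hf
  have hnest : S b ⊆ S b' ∨ S b' ⊆ S b := by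
    rcases le_total (j b) (j b') with h | h
    · left
      intro a ha
      rw [hS, Finset.mem_filter] at ha ⊢
      exact ⟨Finset.mem_univ _, ha.2.trans h⟩
    · right
      intro a ha
      rw [hS, Finset.mem_filter] at ha ⊢
      exact ⟨Finset.mem_univ _, ha.2.trans h⟩
  have hmem : ∀ b a, a ∈ S b ↔ r a ≤ j b := by
    intro b a
    rw [hS, Finset.mem_filter]
    simp
  refine ⟨b, b', hbb, par_of r _ _ _ _ ?_⟩
  by_cases hc : (S b).card = (S b').card
  · left
    have hEq : S b = S b' := by
      rcases hnest with h | h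
      · exact Finset.eq_of_subset_of_card_le h hc.ge
      · exact (Finset.eq_of_subset_of_card_le h hc.le).symm
    intro a
    rw [← hmem, ← hmem, hEq]
  · right
    have h1 := hle b
    have h2 := hle b'
    have hor : ((S b).card = 0 ∧ (S b').card = n + 1) ∨
        ((S b).card = n + 1 ∧ (S b').card = 0) := by
      rcases Nat.lt_or_ge (S b).card (n + 1) with h3 | h3
      · rw [Nat.mod_eq_of_lt h3] at hmod
        rcases Nat.lt_or_ge (S b').card (n + 1) with h4 | h4
        · rw [Nat.mod_eq_of_lt h4] at hmod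
          exact absurd hmod hc
        · have h5 : (S b').card = n + 1 := le_antisymm h2 h4
          rw [h5, Nat.mod_self] at hmod
          exact Or.inl ⟨hmod, h5⟩
      · have h5 : (S b).card = n + 1 := le_antisymm h1 h3
        rw [h5, Nat.mod_self] at hmod
        rcases Nat.lt_or_ge (S b').card (n + 1) with h4 | h4
        · rw [Nat.mod_eq_of_lt h4] at hmod
          exact Or.inr ⟨h5, hmod.symm⟩
        · exact absurd (h5.trans (le_antisymm h2 h4).symm) hc
    have huniv : ∀ b, (S b).card = n + 1 → ∀ a, a ∈ S b := by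
      intro b hb a
      have : S b = Finset.univ := Finset.eq_univ_of_card _ (by simpa using hb)
      rw [this]; exact Finset.mem_univ a
    have hempty : ∀ b, (S b).card = 0 → ∀ a, a ∉ S b := by
      intro b hb a
      rw [Finset.card_eq_zero] at hb
      rw [hb]; exact Finset.notMem_empty a
    intro a
    rw [← hmem, ← hmem]
    rcases hor with ⟨h3, h4⟩ | ⟨h3, h4⟩
    · have := hempty b h3 a
      have := huniv b' h4 a
      tauto
    · have := huniv b h3 a
      have := hempty b' h4 a
      tauto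

/-- the matrix of chosen entries -/
noncomputable def pm {d q l : ℕ} (r : Fin q → Fin d) (j : Fin l → Fin d) (s : Fin l → Bool) :
    Matrix (Fin q) (Fin l) ℝ := Matrix.of fun a b => pv (r a) (j b) (s b)

lemma det_mono {d : ℕ} : ∀ (n : ℕ) (r : Fin (n + 1) → Fin d) (j : Fin (n + 1) → Fin d)
    (s : Fin (n + 1) → Bool), StrictMono r → |(pm r j s).det| ≤ 1 / 2 := by
  intro n
  induction n with
  | zero =>
    intro r j s _
    rw [Matrix.det_fin_one]
    exact (abs_pv _ _ _).le
  | succ n ih =>
    intro r j s hr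
    set M := pm r j s with hM
    have h01 : (0 : Fin (n + 2)) ≠ 1 := by simp
    have hdet : (M.updateRow 0 (M 0 + (-1 : ℝ) • M 1)).det = M.det :=
      Matrix.det_updateRow_add_smul_self M h01 (-1)
    have hlt : r 0 < r 1 := hr (by simp)
    have hrow : ∀ b, (M 0 + (-1 : ℝ) • M 1) b =
        if r 0 ≤ j b ∧ ¬ r 1 ≤ j b then (if s b then 1 else -1) else 0 := by
      intro b
      simp only [hM, pm, Pi.add_apply, Pi.smul_apply, Matrix.of_apply, smul_eq_mul, pv]
      by_cases h1 : r 1 ≤ j b
      · have h0 : r 0 ≤ j b := hlt.le.trans h1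
        have hn : ¬ (r 0 ≤ j b ∧ ¬ r 1 ≤ j b) := fun h => h.2 h1
        rw [if_pos h0, if_pos h1, if_neg hn]
        ring
      · by_cases h0 : r 0 ≤ j b
        · have hn : r 0 ≤ j b ∧ ¬ r 1 ≤ j b := ⟨h0, h1⟩
          rw [if_pos h0, if_neg h1, if_pos hn]
          cases s b <;> norm_num
        · have hn : ¬ (r 0 ≤ j b ∧ ¬ r 1 ≤ j b) := fun h => h0 h.1
          rw [if_neg h0, if_neg h1, if_neg hn]
          ring
    by_cases htwo : ∃ b b', b ≠ b' ∧ (r 0 ≤ j b ∧ ¬ r 1 ≤ j b) ∧ (r 0 ≤ j b' ∧ ¬ r 1 ≤ j b')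
    · obtain ⟨b, b', hbb, ⟨h1, h2⟩, ⟨h3, h4⟩⟩ := htwo
      have hcl : ∀ a, r a ≤ j b ↔ r a ≤ j b' := by
        intro a
        refine Fin.cases ?_ (fun a => ?_) a
        · exact ⟨fun _ => h3, fun _ => h1⟩
        · have h5 : r 1 ≤ r a.succ := hr.monotone (by
            rw [Fin.le_def]; simp)
          exact ⟨fun h => absurd (h5.trans h) h2, fun h => absurd (h5.trans h) h4⟩
      obtain ⟨ε, hε⟩ := par_of r (j b) (j b') (s b) (s b') (Or.inl hcl)
      have : M.det = 0 := det_par M b b' hbb ε (fun a => hε a)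
      rw [this]; norm_num
    · rw [← hdet, Matrix.det_succ_row_zero]
      by_cases hone : ∃ b, r 0 ≤ j b ∧ ¬ r 1 ≤ j b
      · obtain ⟨b, hb⟩ := hone
        rw [Finset.sum_eq_single b]
        · have hminor : ((M.updateRow 0 (M 0 + (-1 : ℝ) • M 1)).submatrix Fin.succ b.succAbove) =
              pm (fun a => r a.succ) (fun x => j (b.succAbove x)) (fun x => s (b.succAbove x)) := by
            ext a x
            rw [Matrix.submatrix_apply, Matrix.updateRow_ne (Fin.succ_ne_zero a)]
            rfl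
          rw [hminor, Matrix.updateRow_self, hrow, if_pos hb, abs_mul, abs_mul, abs_pow, abs_neg,
            abs_one, one_pow, one_mul, abs_sgn, one_mul]
          exact ih _ _ _ (fun a a' h => hr (Fin.succ_lt_succ_iff.2 h))
        · intro x _ hx
          have : ¬ (r 0 ≤ j x ∧ ¬ r 1 ≤ j x) := fun h => htwo ⟨x, b, hx, h, hb⟩
          rw [Matrix.updateRow_self, hrow, if_neg this]
          ring
        · intro h; exact absurd (Finset.mem_univ _) h
      · push Not at hone
        rw [Finset.sum_eq_zero]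
        · norm_num
        · intro x _
          have : ¬ (r 0 ≤ j x ∧ ¬ r 1 ≤ j x) := fun h => h.2 (hone x h.1)
          rw [Matrix.updateRow_self, hrow, if_neg this]
          ring

lemma det_inj {d n : ℕ} (r : Fin (n + 1) → Fin d) (j : Fin (n + 1) → Fin d)
    (s : Fin (n + 1) → Bool) (hr : Function.Injective r) : |(pm r j s).det| ≤ 1 / 2 := by
  have hmono : StrictMono (r ∘ Tuple.sort r) :=
    (Tuple.monotone_sort r).strictMono_of_injective (hr.comp (Tuple.sort r).injective)
  have h := det_mono n (r ∘ Tuple.sort r) j s hmono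
  have e : pm (r ∘ Tuple.sort r) j s = (pm r j s).submatrix (Tuple.sort r) id := rfl
  rw [e, Matrix.det_permute, abs_mul] at h
  have h2 : |(((Equiv.Perm.sign (Tuple.sort r) : ℤˣ) : ℤ) : ℝ)| = 1 := by
    rcases Int.units_eq_one_or (Equiv.Perm.sign (Tuple.sort r)) with h | h <;> rw [h] <;> simp
  rw [h2, one_mul] at h
  exact h

/-- the columns before the shift -/
def hcol {d : ℕ} (x : Fin d × Bool × Fin 3) : Fin (d + 1) → ℤ :=
  Fin.snoc (fun i : Fin d => if i ≤ x.1 then (if x.2.1 then 0 else -1)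
    else (if x.2.1 then -1 else 0)) ((x.2.2.val : ℤ) - 1)

/-- the shift -/
noncomputable def hsh (d : ℕ) : Fin (d + 1) → ℝ := Fin.snoc (fun _ : Fin d => 1 / 2) 0

lemma hcol_cast {d : ℕ} (x : Fin d × Bool × Fin 3) (i : Fin d) : hcol x i.castSucc =
    if i ≤ x.1 then (if x.2.1 then 0 else -1) else (if x.2.1 then -1 else 0) := by
  simp [hcol]
lemma hcol_last {d : ℕ} (x : Fin d × Bool × Fin 3) :
    hcol x (Fin.last d) = (x.2.2.val : ℤ) - 1 := by simp [hcol]
lemma hsh_cast {d : ℕ} (i : Fin d) : hsh d i.castSucc = 1 / 2 := by simp [hsh]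
lemma hsh_last {d : ℕ} : hsh d (Fin.last d) = 0 := by simp [hsh]

lemma sum_cast {d : ℕ} (x : Fin d × Bool × Fin 3) (i : Fin d) :
    hsh d i.castSucc + (hcol x i.castSucc : ℝ) = pv i x.1 x.2.1 := by
  rw [hsh_cast, hcol_cast, pv]
  by_cases h : i ≤ x.1
  · rw [if_pos h, if_pos h]
    cases x.2.1 <;> norm_num
  · rw [if_neg h, if_neg h]
    cases x.2.1 <;> norm_num

lemma last_entry {d : ℕ} (x : Fin d × Bool × Fin 3) :
    |hsh d (Fin.last d) + (hcol x (Fin.last d) : ℝ)| ≤ 1 := by
  rw [hsh_last, hcol_last, zero_add]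
  have h : x.2.2.val < 3 := x.2.2.isLt
  have h1 : -1 ≤ (x.2.2.val : ℤ) - 1 := by omega
  have h2 : (x.2.2.val : ℤ) - 1 ≤ 1 := by omega
  rw [abs_le]
  exact ⟨by exact_mod_cast h1, by exact_mod_cast h2⟩

lemma hcol_inj {d : ℕ} : Function.Injective (hcol : Fin d × Bool × Fin 3 → Fin (d + 1) → ℤ) := by
  rintro ⟨j, s, z⟩ ⟨j', s', z'⟩ h
  have hz : z = z' := by
    have := congrFun h (Fin.last d)
    rw [hcol_last, hcol_last] at this
    apply Fin.ext
    simp only at this
    omega
  have hi : ∀ i : Fin d, (if i ≤ j then (if s then (0 : ℤ) else -1) else (if s then -1 else 0)) =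
      if i ≤ j' then (if s' then (0 : ℤ) else -1) else (if s' then -1 else 0) := by
    intro i
    have := congrFun h i.castSucc
    rwa [hcol_cast, hcol_cast] at this
  have hs : s = s' := by
    have h0 : 0 < d := lt_of_le_of_lt (Nat.zero_le _) j.isLt
    have := hi ⟨0, h0⟩
    have e1 : (⟨0, h0⟩ : Fin d) ≤ j := by rw [Fin.le_def]; exact Nat.zero_le _
    have e2 : (⟨0, h0⟩ : Fin d) ≤ j' := by rw [Fin.le_def]; exact Nat.zero_le _
    rw [if_pos e1, if_pos e2] at this
    cases s <;> cases s' <;> simp_all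
  subst hs
  have hj : j = j' := by
    apply le_antisymm
    · have := hi j
      rw [if_pos le_rfl] at this
      by_contra hc
      rw [if_neg hc] at this
      cases s <;> simp_all
    · have := hi j'
      rw [if_pos (le_refl j')] at this
      by_contra hc
      rw [if_neg hc] at this
      cases s <;> simp_all
  rw [hz, hj]

/-- the shifted matrix of the chosen columns -/
noncomputable def hm {d k : ℕ} (r : Fin k → Fin (d + 1)) (x : Fin k → Fin d × Bool × Fin 3) :
    Matrix (Fin k) (Fin k) ℝ := Matrix.of fun a b => hsh d (r a) + (hcol (x b) (r a) : ℝ)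

/-- rows above the last one -/
lemma hm_upper {d k : ℕ} (r : Fin k → Fin (d + 1)) (h0 : ∀ a, r a ≠ Fin.last d)
    (x : Fin k → Fin d × Bool × Fin 3) :
    ∃ r' : Fin k → Fin d, (∀ a, r a = (r' a).castSucc) ∧
      hm r x = pm r' (fun b => (x b).1) (fun b => (x b).2.1) := by
  have : ∀ a, ∃ i : Fin d, r a = i.castSucc := fun a =>
    ⟨(r a).castPred (h0 a), (Fin.castSucc_castPred _ _).symm⟩
  choose r' hr' using this
  refine ⟨r', hr', ?_⟩
  ext a b
  simp only [hm, pm, Matrix.of_apply, hr', sum_cast]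

lemma hm_upper_bound {d k : ℕ} (r : Fin k → Fin (d + 1)) (hr : Function.Injective r)
    (h0 : ∀ a, r a ≠ Fin.last d) (x : Fin k → Fin d × Bool × Fin 3) :
    |(hm r x).det| ≤ 1 ∧ (1 ≤ k → |(hm r x).det| ≤ 1 / 2) := by
  obtain ⟨r', hr', he⟩ := hm_upper r h0 x
  rw [he]
  rcases k with _ | k
  · refine ⟨by simp, fun h => absurd h (by norm_num)⟩
  · have hinj : Function.Injective r' := by
      intro a a' h
      apply hr
      rw [hr', hr', h]
    have := det_inj r' (fun b => (x b).1) (fun b => (x b).2.1) hinj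
    exact ⟨this.trans (by norm_num), fun _ => this⟩

lemma hm_bound {d k : ℕ} (r : Fin k → Fin (d + 1)) (x : Fin k → Fin d × Bool × Fin 3) :
    |(hm r x).det| ≤ 1 := by
  by_cases hr : Function.Injective r
  swap
  · have : (hm r x).det = 0 := by
      rw [Function.Injective] at hr
      push Not at hr
      obtain ⟨a, a', h1, h2⟩ := hr
      apply Matrix.det_zero_of_row_eq h2
      funext b
      simp only [hm, Matrix.of_apply, h1]
    rw [this]; simp
  by_cases h0 : ∀ a, r a ≠ Fin.last d
  · exact (hm_upper_bound r hr h0 x).1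
  push Not at h0
  obtain ⟨i0, hi0⟩ := h0
  rcases k with _ | k
  · exact i0.elim0
  have hrest : ∀ a, r (i0.succAbove a) ≠ Fin.last d := by
    intro a h
    exact (Fin.succAbove_ne i0 a) (hr (h.trans hi0.symm))
  have hrinj : Function.Injective (fun a => r (i0.succAbove a)) :=
    hr.comp Fin.succAbove_right_injective
  have hmin : ∀ j : Fin (k + 1), (hm r x).submatrix i0.succAbove j.succAbove =
      hm (fun a => r (i0.succAbove a)) (fun b => x (j.succAbove b)) := fun j => rfl
  have hent : ∀ j, |hm r x i0 j| ≤ 1 := by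
    intro j
    simp only [hm, Matrix.of_apply, hi0]
    exact last_entry (x j)
  rw [Matrix.det_succ_row (hm r x) i0]
  rcases k with _ | n
  · rw [Fin.sum_univ_one, abs_mul, abs_mul, abs_pow, abs_neg, abs_one, one_pow, one_mul, hmin]
    calc |hm r x i0 0| * _ ≤ 1 * 1 :=
        mul_le_mul (hent 0) (hm_upper_bound _ hrinj hrest _).1 (abs_nonneg _) zero_le_one
      _ = 1 := one_mul 1
  obtain ⟨r', hr', -⟩ := hm_upper (fun a => r (i0.succAbove a)) hrest
    (fun b => x ((0 : Fin (n + 2)).succAbove b))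
  obtain ⟨b, b', hbb, ε, hε⟩ := exists_par r' (fun b => (x b).1) (fun b => (x b).2.1)
  have hcol : ∀ a c, (hm r x) (i0.succAbove a) c = pv (r' a) (x c).1 (x c).2.1 := by
    intro a c
    have h1 : r (i0.succAbove a) = (r' a).castSucc := hr' a
    simp only [hm, Matrix.of_apply, h1, sum_cast]
  have hzero : ∀ j, j ≠ b → j ≠ b' →
      ((hm r x).submatrix i0.succAbove j.succAbove).det = 0 := by
    intro j hj hj'
    obtain ⟨c, hc⟩ := Fin.exists_succAbove_eq hj.symm
    obtain ⟨c', hc'⟩ := Fin.exists_succAbove_eq hj'.symm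
    refine det_par _ c c' ?_ ε ?_
    · intro h
      apply hbb
      rw [← hc, ← hc', h]
    · intro a
      rw [Matrix.submatrix_apply, Matrix.submatrix_apply, hc, hc', hcol, hcol]
      exact hε a
  rw [Finset.sum_eq_add b b' hbb]
  · have hterm : ∀ j : Fin (n + 2), |(-1 : ℝ) ^ ((i0 : ℕ) + (j : ℕ)) * hm r x i0 j *
        ((hm r x).submatrix i0.succAbove j.succAbove).det| ≤ 1 / 2 := by
      intro j
      rw [abs_mul, abs_mul, abs_pow, abs_neg, abs_one, one_pow, one_mul, hmin]
      calc |hm r x i0 j| * _ ≤ 1 * (1 / 2) :=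
          mul_le_mul (hent j) ((hm_upper_bound _ hrinj hrest _).2 (by omega)) (abs_nonneg _)
            zero_le_one
        _ = 1 / 2 := one_mul _
    calc _ ≤ _ + _ := abs_add_le _ _
      _ ≤ 1 / 2 + 1 / 2 := add_le_add (hterm b) (hterm b')
      _ = 1 := by norm_num
  · intro j _ hj
    rw [hzero j hj.1 hj.2, mul_zero]
  · intro h; exact absurd (Finset.mem_univ _) h
  · intro h; exact absurd (Finset.mem_univ _) h

theorem lower_half (d : ℕ) (hd : 1 ≤ d) : 6 * d ∈ ShiftedSizes (d + 1) := by
  have hcard : Fintype.card (Fin d × Bool × Fin 3) = 6 * d := by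
    rw [Fintype.card_prod, Fintype.card_prod, Fintype.card_fin, Fintype.card_bool,
      Fintype.card_fin]
    ring
  set e : Fin (6 * d) ≃ Fin d × Bool × Fin 3 := (Fintype.equivFinOfCardEq hcard).symm with he
  refine ⟨hsh d, Matrix.of fun i j => (hcol (e j) i : ℝ), ?_, ?_, ?_, ?_, ?_⟩
  · intro i
    refine Fin.lastCases ?_ (fun i => ?_) i
    · rw [hsh_last]; norm_num
    · rw [hsh_cast]; norm_num
  · intro h
    have := congrFun h (Fin.castSucc ⟨0, hd⟩)
    rw [hsh_cast] at this
    simp at this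
  · intro i j
    rw [Matrix.of_apply]
    refine Fin.lastCases ?_ (fun i => ?_) i
    · rw [hcol_last]
      generalize (e j).2.2 = z
      fin_cases z <;> norm_num
    · rw [hcol_cast]
      split_ifs <;> norm_num
  · intro j j' h
    apply e.injective
    apply hcol_inj
    funext i
    have := congrFun h i
    simp only [Matrix.transpose_apply, Matrix.of_apply] at this
    exact_mod_cast this
  · intro k r c
    exact hm_bound r (fun b => e (c b))

end Pool.Agent.Y424.HS
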